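import Pool.Agent.X187.HG.Fin

open Filter Topology

namespace Pool.Agent.Results.MP_f7c330_an.NoCommonVector

/-- `X` is a complex Fréchet space: Hausdorff, complete, and its topology is given by a sequence of
seminorms. -/
def IsFrechetSpace (X : Type) [AddCommGroup X] [Module ℂ X] [UniformSpace X]
    [IsUniformAddGroup X] : Prop :=
  T2Space X ∧ CompleteSpace X ∧ ∃ p : ℕ → Seminorm ℂ X, WithSeminorms p

/-- `T` is a holomorphic strongly continuous operator group on `X`. -/
def IsHolomorphicGroup {X : Type} [AddCommGroup X] [Module ℂ X] [TopologicalSpace X]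
    (T : ℂ → X →L[ℂ] X) : Prop :=
  (∀ x, T 0 x = x) ∧ (∀ z w x, T (z + w) x = T z (T w x)) ∧
    ∀ x z, ∃ y, Tendsto (fun h : ℂ => h⁻¹ • (T (z + h) x - T z x)) (𝓝[≠] 0) (𝓝 y)

/-- `x` is a hypercyclic vector for the map `S`: its orbit is dense. -/
def IsHypercyclicVector {X : Type} [TopologicalSpace X] (S : X → X) (x : X) : Prop :=
  Dense (Set.range fun n : ℕ => S^[n] x)

/-- There is a holomorphic strongly continuous operator group `T` on a complex Fréchet space such
that `a T_z` is hypercyclic for all non-zero `a, z`, and the operators `a T_z`, `a, z ≠ 0`, have no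
common hypercyclic vector. -/
theorem result : ∃ (X : Type) (_ : AddCommGroup X) (_ : Module ℂ X) (_ : UniformSpace X)
    (_ : IsUniformAddGroup X) (T : ℂ → X →L[ℂ] X), IsFrechetSpace X ∧ IsHolomorphicGroup T ∧
    (∀ a z : ℂ, a ≠ 0 → z ≠ 0 → ∃ x, IsHypercyclicVector (fun y => a • T z y) x) ∧
    ¬ ∃ x, ∀ a z : ℂ, a ≠ 0 → z ≠ 0 → IsHypercyclicVector (fun y => a • T z y) x := by
  refine ⟨X187.HG.X, inferInstance, inferInstance, inferInstance, inferInstance, X187.HG.T,
    ⟨inferInstance, inferInstance, X187.HG.sem, X187.HG.withSeminorms⟩, ⟨?_, ?_, ?_⟩, ?_, ?_⟩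
  · intro x
    rw [X187.HG.T_zero]
    rfl
  · intro z w x
    rw [X187.HG.T_add]
    rfl
  · intro x z
    exact ⟨_, X187.HG.holo x z⟩
  · intro a z ha hz
    exact X187.HG.hypercyclic ha hz
  · rintro ⟨x, hx⟩
    exact X187.HG.no_common x hx

end Pool.Agent.Results.MP_f7c330_an.NoCommonVector
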